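import Mathlib
import Pool.Agent.Helper123.Quad.Slope
import Pool.Agent.Helper123.Quad.Singular
import Pool.Agent.Helper123.Quad.InnerFn
import Pool.Agent.Helper123.Quad.ConvContraction
import Pool.Agent.Helper123.Quad.FixedPoint
import Pool.Agent.Helper123.Quad.Assemble

set_option autoImplicit false

open MeasureTheory Set Filter Topology Metric
open scoped ENNReal NNReal Real

namespace Pool.Agent.Results.MP_9159b8_an.NonAnalytic

/-- The quadrature identity: for every `u = Re F`, `F` holomorphic in `Ω` and continuous on the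
closure of `Ω`, the area mean of `u` over `Ω` equals the arc length mean of `u` over the boundary
`Γ = frontier Ω`.  Arc length on `Γ` is the one-dimensional Hausdorff measure `μH[1]`. -/
def QuadratureIdentity (Ω : Set ℂ) : Prop :=
  ∀ F : ℂ → ℂ, ContinuousOn F (closure Ω) → DifferentiableOn ℂ F Ω →
    (volume Ω).toReal⁻¹ * ∫ z in Ω, (F z).re
      = (μH[1] (frontier Ω)).toReal⁻¹ * ∫ z in frontier Ω, (F z).re ∂μH[1]

/-- `A` is a real-analytic arc, in the widest sense: the image of the open interval `(0,1)` under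
an injective real-analytic map (its derivative is even allowed to vanish somewhere). -/
def IsAnalyticArc (A : Set ℂ) : Prop :=
  ∃ α : ℝ → ℂ, (∀ t ∈ Ioo (0 : ℝ) 1, AnalyticAt ℝ α t) ∧
    InjOn α (Ioo 0 1) ∧ A = α '' Ioo 0 1

/-- `Ω` is a Jordan domain: there is an injective continuous map of the closed unit disc,
holomorphic in the open disc, carrying the open disc onto `Ω` and the unit circle onto the
boundary of `Ω`. (In particular `Ω` is simply connected.) -/
def IsJordanDomain (Ω : Set ℂ) : Prop :=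
  ∃ f : ℂ → ℂ, ContinuousOn f (closedBall 0 1) ∧ InjOn f (closedBall 0 1) ∧
    DifferentiableOn ℂ f (ball 0 1) ∧ f '' ball 0 1 = Ω ∧ f '' sphere 0 1 = frontier Ω

/-- Negative answer to Q1, even for simply connected (Jordan) domains: there is a bounded Jordan
domain `Ω` whose boundary has finite positive length, which satisfies the quadrature identity,
and a boundary point near which the boundary is not a real-analytic arc. -/
theorem result : ∃ Ω : Set ℂ, IsOpen Ω ∧ IsConnected Ω ∧ Bornology.IsBounded Ω ∧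
    IsJordanDomain Ω ∧
    0 < μH[1] (frontier Ω) ∧ μH[1] (frontier Ω) < ⊤ ∧
    QuadratureIdentity Ω ∧
    ∃ p ∈ frontier Ω, ∀ U : Set ℂ, IsOpen U → p ∈ U → ¬ IsAnalyticArc (frontier Ω ∩ U) := by
  obtain ⟨P, hP⟩ := Quad.exists_slopeSys
  obtain ⟨H, C, ζ₀, O, hC, hζ₀, hHd, hH0, hHre, hHder, hO, hOc, hlim, hblow⟩ :=
    Quad.Sing.exists_singular_bloch P hP
  obtain ⟨S, h, s, Θ, ζ₁, hs, hS1, hodd, hs0, hSh, hh, hΘ, hΘc, hSlim, hζ₁, hS0⟩ :=
    Quad.exists_inner H C ζ₀ O hC hζ₀ hHd hH0 hHre hHder hO hOc hlim hblow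
  have hcontr := Quad.conv_contraction S s hs hS1
  obtain ⟨G, φ, c, hc, hG0, hG, hG1, hφ, hφ', hid⟩ := Quad.quad_fixed_point s hcontr hodd hs0
  have hs1 : ∀ n, ‖s n‖ ≤ 1 := by
    intro n
    have h1 := hcontr (fun k => if k = 0 then 1 else 0) (n + 1)
    have h2 : ∀ m, ∑ p ∈ Finset.HasAntidiagonal.antidiagonal m,
        s p.1 * (if p.2 = 0 then (1 : ℂ) else 0) = s m := by
      intro m
      rw [Finset.sum_eq_single (m, 0)]
      · simp
      · rintro ⟨a, b⟩ hab hne
        rw [Finset.HasAntidiagonal.mem_antidiagonal] at hab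
        simp only at hab ⊢
        by_cases hb : b = 0
        · exfalso
          apply hne
          rw [hb] at hab ⊢
          simp at hab
          rw [hab]
        · simp [hb]
      · intro hn
        exact absurd (Finset.HasAntidiagonal.mem_antidiagonal.2 (by simp)) hn
    simp only [h2] at h1
    have h3 : ∑ k ∈ Finset.range (n + 1), ‖(if k = 0 then (1 : ℂ) else 0)‖ ^ 2 = 1 := by
      rw [Finset.sum_eq_single 0]
      · simp
      · intro b _ hb
        simp [hb]
      · simp
    rw [h3] at h1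
    have h4 : ‖s n‖ ^ 2 ≤ ∑ k ∈ Finset.range (n + 1), ‖s k‖ ^ 2 :=
      Finset.single_le_sum (f := fun k => ‖s k‖ ^ 2) (fun k _ => by positivity)
        (Finset.mem_range.2 (Nat.lt_succ_self n))
    have h5 : ‖s n‖ ^ 2 ≤ 1 := h4.trans h1
    nlinarith [norm_nonneg (s n)]
  obtain ⟨f, hfc, hfi, hfd, h1, h2, h3, h4, h5, h6, h7, p, hp, h8⟩ :=
    Quad.assemble S h s Θ ζ₁ G φ c hs hs1 hS1 hSh hh hΘ hΘc hSlim hζ₁ hS0 hc hG0 hG hG1 hφ hφ' hid
  exact ⟨f '' ball 0 1, h1, h2, h3, ⟨f, hfc, hfi, hfd, rfl, h4.symm⟩, h5, h6, h7, p, hp, h8⟩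

end Pool.Agent.Results.MP_9159b8_an.NonAnalytic
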